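import Pool.Agent.Helper37.KD.DefsC
import Pool.Agent.Helper37.KD.St.A4
import Pool.Agent.Helper37.KD.St.H5

/-! KD Part I, piece H7 -/

namespace KD.I.H7

open Finset KD

theorem nrm_nonneg {d N : ℕ} {r R : ℝ} (hr : 0 ≤ r) (hR : 0 ≤ R) (w : GG d N) : 0 ≤ nrm r R w := by
  unfold nrm n1
  have h1 : (0:ℝ) ≤ ∑ i, ((w.1 i).valMinAbs.natAbs : ℝ) := Finset.sum_nonneg (fun i _ => by positivity)
  have h2 : (0:ℝ) ≤ ∑ i, ((w.2 i).valMinAbs.natAbs : ℝ) := Finset.sum_nonneg (fun i _ => by positivity)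
  positivity

/-- occupation bound from the averaged entropy -/
theorem occ_bound (d : ℕ) (Ce Cm : ℝ) : ∃ C : ℝ, 0 < C ∧ ∀ (N : ℕ) [NeZero N] (r R : ℝ),
    1 ≤ r → 1 ≤ R → r ≤ N → R ≤ N → ∀ (T : ℕ) (ω : ℝ), 0 < ω → ω * T ≤ 1 →
    ∀ (u : ℕ → GG d N → ℝ), (∀ n < T, IsP (u n)) → (∀ n < T, ∑ z, u n z * nrm r R z ≤ Cm) →
    (ω * ∑ n ∈ range T, (Ht (u n) + Real.log (r ^ d * R ^ d)) ≤ Ce) →
    ∀ (Sn : ℕ → Finset (GG d N)) (π : ℝ), 0 < π → π < 1 →
    C * ω * ∑ n ∈ range T, ((Sn n).card : ℝ) ≤ π * (r ^ d * R ^ d) →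
    ω * ∑ n ∈ range T, ∑ z ∈ Sn n, u n z ≤ C / Real.log (1 / π) := by
  classical
  obtain ⟨CZ, hCZ, hZ⟩ := gibbs_Z d
  set C1 : ℝ := max CZ 1 with hC1
  have hC1' : 1 ≤ C1 := le_max_right _ _
  have hlC1 : 0 ≤ Real.log C1 := Real.log_nonneg hC1'
  set C : ℝ := |Cm| + |Ce| + Real.log C1 + 1 with hC
  have hCge : 1 ≤ C := by
    have := abs_nonneg Cm
    have := abs_nonneg Ce
    linarith
  refine ⟨C, by linarith, ?_⟩
  intro N _ r R hr hR hrN hRN T ω hω hωT u hu hmom hent Sn π hπ hπ1 hS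
  have hL : 0 < Real.log (1 / π) := Real.log_pos (by rw [lt_div_iff₀ hπ]; linarith)
  set L : ℝ := Real.log (1 / π) with hLdef
  set Vv : ℝ := r ^ d * R ^ d with hV
  have hVpos : 0 < Vv := by positivity
  -- pointwise estimate
  have key : ∀ n < T, L * ∑ z ∈ Sn n, u n z ≤
      Cm + (Ht (u n) + Real.log Vv) + Real.log C1 + ((Sn n).card : ℝ) / (π * Vv) := by
    intro n hn
    have hP := hu n hn
    have hg := gibbs (u n) (fun z => - nrm r R z + (if z ∈ Sn n then L else 0)) hP.nn hP.one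
    have hlhs : ∑ z, u n z * (- nrm r R z + (if z ∈ Sn n then L else 0))
        = L * ∑ z ∈ Sn n, u n z - ∑ z, u n z * nrm r R z := by
      have : ∀ z, u n z * (- nrm r R z + (if z ∈ Sn n then L else 0))
          = (if z ∈ Sn n then L * u n z else 0) - u n z * nrm r R z := by
        intro z
        split_ifs <;> ring
      rw [Finset.sum_congr rfl (fun z _ => this z), Finset.sum_sub_distrib, Finset.sum_ite_mem,
        Finset.univ_inter, Finset.mul_sum]
    have hZle : ∑ z, Real.exp (- nrm r R z + (if z ∈ Sn n then L else 0))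
        ≤ C1 * Vv + ((Sn n).card : ℝ) / π := by
      have hpt : ∀ z, Real.exp (- nrm r R z + (if z ∈ Sn n then L else 0))
          ≤ Real.exp (- nrm r R z) + (if z ∈ Sn n then 1 / π else 0) := by
        intro z
        split_ifs with hz
        · have hn0 := nrm_nonneg (r := r) (R := R) (by linarith) (by linarith) z
          have h1 : Real.exp (- nrm r R z + L) ≤ Real.exp L := Real.exp_le_exp.2 (by linarith)
          have h2 : Real.exp L = 1 / π := by
            rw [hLdef, Real.exp_log (by positivity)]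
          have h3 := (Real.exp_pos (- nrm r R z)).le
          linarith
        · simp
      refine (Finset.sum_le_sum (fun z _ => hpt z)).trans ?_
      rw [Finset.sum_add_distrib, Finset.sum_ite_mem, Finset.univ_inter, Finset.sum_const,
        nsmul_eq_mul]
      have h1 := (hZ N r R hr hR hrN hRN).1
      have h2 : CZ * Vv ≤ C1 * Vv := mul_le_mul_of_nonneg_right (le_max_left _ _) hVpos.le
      have h3 : ((Sn n).card : ℝ) * (1 / π) = ((Sn n).card : ℝ) / π := by ring
      rw [h3]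
      linarith
    have hZpos : 0 < ∑ z, Real.exp (- nrm r R z + (if z ∈ Sn n then L else 0)) :=
      Finset.sum_pos (fun z _ => Real.exp_pos _) ⟨0, Finset.mem_univ _⟩
    have hlog : Real.log (∑ z, Real.exp (- nrm r R z + (if z ∈ Sn n then L else 0)))
        ≤ Real.log Vv + Real.log C1 + ((Sn n).card : ℝ) / (π * Vv) := by
      have h1 : Real.log (∑ z, Real.exp (- nrm r R z + (if z ∈ Sn n then L else 0)))
          ≤ Real.log (C1 * Vv + ((Sn n).card : ℝ) / π) := Real.log_le_log hZpos hZle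
      have hx : 0 ≤ ((Sn n).card : ℝ) / (π * Vv) := by positivity
      have h2 : C1 * Vv + ((Sn n).card : ℝ) / π
          = Vv * C1 * (1 + ((Sn n).card : ℝ) / (π * Vv) / C1) := by
        have : C1 ≠ 0 := by linarith
        field_simp
      have hC1pos : 0 < C1 := by linarith
      have hx2 : 0 ≤ ((Sn n).card : ℝ) / (π * Vv) / C1 := by positivity
      have h3 : Real.log (C1 * Vv + ((Sn n).card : ℝ) / π)
          = Real.log Vv + Real.log C1 + Real.log (1 + ((Sn n).card : ℝ) / (π * Vv) / C1) := by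
        rw [h2, Real.log_mul (by positivity) (by positivity), Real.log_mul (by positivity) (by positivity)]
      have h4 : Real.log (1 + ((Sn n).card : ℝ) / (π * Vv) / C1)
          ≤ ((Sn n).card : ℝ) / (π * Vv) / C1 := by
        have := Real.log_le_sub_one_of_pos (x := 1 + ((Sn n).card : ℝ) / (π * Vv) / C1) (by positivity)
        linarith
      have h5 : ((Sn n).card : ℝ) / (π * Vv) / C1 ≤ ((Sn n).card : ℝ) / (π * Vv) :=
        div_le_self hx hC1'
      linarith
    have hm := hmom n hn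
    rw [hlhs] at hg
    linarith
  -- sum
  have hsum : ∑ n ∈ range T, L * ∑ z ∈ Sn n, u n z ≤
      ∑ n ∈ range T, (Cm + (Ht (u n) + Real.log Vv) + Real.log C1 + ((Sn n).card : ℝ) / (π * Vv)) :=
    Finset.sum_le_sum (fun n hn => key n (Finset.mem_range.1 hn))
  rw [← Finset.mul_sum] at hsum
  simp only [Finset.sum_add_distrib] at hsum
  rw [← Finset.sum_div] at hsum
  simp only [Finset.sum_const, card_range, nsmul_eq_mul] at hsum
  rw [Finset.sum_add_distrib] at hent
  simp only [Finset.sum_const, card_range, nsmul_eq_mul] at hent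
  set A : ℝ := ∑ n ∈ range T, ∑ z ∈ Sn n, u n z with hA
  set B : ℝ := ∑ n ∈ range T, ((Sn n).card : ℝ) with hB
  set H : ℝ := ∑ n ∈ range T, Ht (u n) with hH
  rw [le_div_iff₀ hL]
  have hT0 : (0:ℝ) ≤ T := Nat.cast_nonneg _
  have hmul := mul_le_mul_of_nonneg_left hsum hω.le
  have e1 : ω * (T * Cm) ≤ |Cm| := by
    have h1 : ω * (T * Cm) ≤ (ω * T) * |Cm| := by
      rw [← mul_assoc]
      exact mul_le_mul_of_nonneg_left (le_abs_self _) (by positivity)
    have h2 : (ω * T) * |Cm| ≤ 1 * |Cm| := mul_le_mul_of_nonneg_right hωT (abs_nonneg _)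
    linarith
  have e2 : ω * (T * Real.log C1) ≤ Real.log C1 := by
    rw [← mul_assoc]
    have h2 : (ω * T) * Real.log C1 ≤ 1 * Real.log C1 := mul_le_mul_of_nonneg_right hωT hlC1
    linarith
  have e3 : ω * (B / (π * Vv)) ≤ 1 := by
    have hB0 : 0 ≤ B := Finset.sum_nonneg (fun n _ => Nat.cast_nonneg _)
    rw [← mul_div_assoc, div_le_one (by positivity)]
    have h1 : ω * B ≤ C * ω * B := by
      have h0 : 0 ≤ ω * B := mul_nonneg hω.le hB0
      have h2 : 1 * (ω * B) ≤ C * (ω * B) := mul_le_mul_of_nonneg_right hCge h0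
      rw [one_mul, ← mul_assoc] at h2
      exact h2
    exact h1.trans hS
  have e4 : ω * (H + T * Real.log Vv) ≤ |Ce| := hent.trans (le_abs_self _)
  have e5 : ω * (T * Cm + (H + T * Real.log Vv) + T * Real.log C1 + B / (π * Vv))
      = ω * (T * Cm) + ω * (H + T * Real.log Vv) + ω * (T * Real.log C1) + ω * (B / (π * Vv)) := by ring
  have e6 : ω * A * L = ω * (L * A) := by ring
  rw [e6]
  rw [e5] at hmul
  linarith

end KD.I.H7
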